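import Pool.Agent.Helper62K9.DV.Upper
import Pool.Agent.Helper62K9.DV.Asymp
import Pool.Agent.Helper62K9.SQ.Sk

set_option autoImplicit false

/-!
# Decomposable circuits for vertex cover: the lower bound, uniform in the ratio
-/

namespace Pool.Agent.Helper62K9.DW

open Finset Pool.Agent.Helper62K9.DV Pool.Agent.Helper62K9.SQ

open Classical in
/-- The counting lemma. -/
theorem core2 (n a r t k : ℕ) (F : Fin k → Finset (Fin n → Bool))
    (P : Fin k → (Fin n → Bool) → Finset (Sym2 (Fin n × Bool)))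
    (hr : 0 < r) (htr : 2 * t ≤ r ^ 2) (har : 3 * n * r ≤ a * (a - 1))
    (hP : ∀ i, ∀ σ ∈ F i, (P i σ).card ≤ t)
    (hdis' : ∀ i j, i ≠ j → ∀ σ ∈ F i, ∀ τ ∈ F j, Disjoint (P i σ) (P j τ))
    (hind : ∀ c : Fin k → (Fin n → Bool), (∀ i, c i ∈ F i) →
      ∃ I : Finset (Fin n × Bool), a ≤ I.card ∧ ∀ u ∈ I, ∀ v ∈ I, u ≠ v →
        ∃ i : Fin k, s(u, v) ∈ P i (c i) ∧ u.2 = c i u.1 ∧ v.2 = c i v.1) :
    (∏ i, (F i).card) * 2 ^ n ≤ 2 ^ (n * k) := by
  -- the vertices of `I` touched by the piece `i`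
  set A : Fin k → Finset (Fin n × Bool) → Finset (Fin n × Bool) := fun i I =>
    I.filter fun v => ∃ u ∈ I, u ≠ v ∧ ∃ τ ∈ F i, s(v, u) ∈ P i τ with hA
  set good := univ.filter fun I : Finset (Fin n × Bool) =>
    3 * n ≤ ∑ i : Fin k, (A i I).card with hgood
  set W : Finset (Fin n × Bool) → Fin k → Finset (Fin n → Bool) := fun I i =>
    univ.filter fun σ : Fin n → Bool => ∀ v ∈ A i I, v.2 = σ v.1 with hW
  have hcover : Fintype.piFinset (fun i : Fin k => F i) ⊆
      good.biUnion fun I => Fintype.piFinset (W I) := by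
    intro c hc
    rw [Fintype.mem_piFinset] at hc
    obtain ⟨I, hIa, hI⟩ := hind c hc
    have hkey : ∀ i : Fin k, ∀ u ∈ I, ∀ v ∈ I, u ≠ v → (∃ τ ∈ F i, s(u, v) ∈ P i τ) →
        s(u, v) ∈ P i (c i) ∧ u.2 = c i u.1 ∧ v.2 = c i v.1 := by
      intro i u hu v hv huv ⟨τ, hτ, hmem⟩
      obtain ⟨j, hj1, hj2, hj3⟩ := hI u hu v hv huv
      have hij : i = j := by
        by_contra hne
        exact (Finset.disjoint_left.1 (hdis' i j hne τ hτ (c j) (hc j))) hmem hj1
      subst hij
      exact ⟨hj1, hj2, hj3⟩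
    rw [mem_biUnion]
    refine ⟨I, ?_, ?_⟩
    · rw [hgood, mem_filter]
      refine ⟨mem_univ _, ?_⟩
      set O : Fin k → Finset ((Fin n × Bool) × (Fin n × Bool)) := fun i =>
        I.offDiag.filter fun p => s(p.1, p.2) ∈ P i (c i) with hO
      have h1 : I.offDiag ⊆ univ.biUnion O := by
        intro p hp
        obtain ⟨hp1, hp2, hp3⟩ := mem_offDiag.1 hp
        obtain ⟨i, hi, -, -⟩ := hI p.1 hp1 p.2 hp2 hp3
        rw [mem_biUnion]
        exact ⟨i, mem_univ _, mem_filter.2 ⟨hp, hi⟩⟩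
      have h2 : ∀ i, (O i).card ≤ r * (A i I).card := by
        intro i
        have h3 : (O i).card ≤ 2 * t := by
          refine (card_pairs_le (O i) (P i (c i)) fun p hp => (mem_filter.1 hp).2).trans ?_
          exact Nat.mul_le_mul_left 2 (hP i (c i) (hc i))
        have h4 : (O i).card ≤ (A i I).card ^ 2 := by
          rw [sq, ← card_product]
          refine card_le_card ?_
          intro p hp
          obtain ⟨hp1, hp2⟩ := mem_filter.1 hp
          obtain ⟨hp1, hp3, hp4⟩ := mem_offDiag.1 hp1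
          rw [mem_product]
          refine ⟨mem_filter.2 ⟨hp1, p.2, hp3, hp4.symm, c i, hc i, hp2⟩,
            mem_filter.2 ⟨hp3, p.1, hp1, hp4, c i, hc i, ?_⟩⟩
          rw [Sym2.eq_swap]
          exact hp2
        have h5 : (O i).card ^ 2 ≤ (r * (A i I).card) ^ 2 := by
          calc (O i).card ^ 2 = (O i).card * (O i).card := sq _
            _ ≤ r ^ 2 * (A i I).card ^ 2 := Nat.mul_le_mul (h3.trans htr) h4
            _ = (r * (A i I).card) ^ 2 := by ring
        exact (Nat.pow_le_pow_iff_left (by norm_num)).1 h5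
      have h6 : I.card * (I.card - 1) ≤ r * ∑ i : Fin k, (A i I).card := by
        calc I.card * (I.card - 1) = I.offDiag.card := by
              rw [offDiag_card]
              exact Nat.mul_sub_one _ _
          _ ≤ (univ.biUnion O).card := card_le_card h1
          _ ≤ ∑ i, (O i).card := card_biUnion_le
          _ ≤ ∑ i : Fin k, r * (A i I).card := sum_le_sum fun i _ => h2 i
          _ = r * ∑ i : Fin k, (A i I).card := by rw [mul_sum]
      have h7 : a * (a - 1) ≤ I.card * (I.card - 1) := Nat.mul_le_mul hIa (by omega)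
      have h8 : r * (3 * n) ≤ r * ∑ i : Fin k, (A i I).card := by
        calc r * (3 * n) = 3 * n * r := by ring
          _ ≤ _ := har.trans (h7.trans h6)
      exact Nat.le_of_mul_le_mul_left h8 hr
    · rw [Fintype.mem_piFinset]
      intro i
      rw [hW, mem_filter]
      refine ⟨mem_univ _, ?_⟩
      intro v hv
      obtain ⟨hv1, u, hu, huv, τ, hτ, hmem⟩ := mem_filter.1 hv
      exact (hkey i v hv1 u hu huv.symm ⟨τ, hτ, hmem⟩).2.1
  have hprod : ∀ I ∈ good, (∏ i, (W I i).card) * 2 ^ (3 * n) ≤ 2 ^ (n * k) := by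
    intro I hI
    have hI' : 3 * n ≤ ∑ i : Fin k, (A i I).card := (mem_filter.1 hI).2
    calc (∏ i, (W I i).card) * 2 ^ (3 * n)
        ≤ (∏ i, (W I i).card) * 2 ^ (∑ i : Fin k, (A i I).card) :=
          Nat.mul_le_mul_left _ (Nat.pow_le_pow_right (by norm_num) hI')
      _ = ∏ i : Fin k, ((W I i).card * 2 ^ (A i I).card) := by
          rw [prod_mul_distrib, prod_pow_eq_pow_sum]
      _ ≤ ∏ _i : Fin k, 2 ^ n := prod_le_prod' fun i _ => card_agree n (A i I)
      _ = 2 ^ (n * k) := by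
          rw [prod_const, card_univ, Fintype.card_fin, ← pow_mul]
  have hsum : (∏ i, (F i).card) * 2 ^ (3 * n) ≤ 2 ^ (2 * n) * 2 ^ (n * k) := by
    calc (∏ i, (F i).card) * 2 ^ (3 * n)
        = (Fintype.piFinset (fun i : Fin k => F i)).card * 2 ^ (3 * n) := by
          rw [Fintype.card_piFinset]
      _ ≤ (∑ I ∈ good, (Fintype.piFinset (W I)).card) * 2 ^ (3 * n) :=
          Nat.mul_le_mul_right _ ((card_le_card hcover).trans card_biUnion_le)
      _ = ∑ I ∈ good, (∏ i, (W I i).card) * 2 ^ (3 * n) := by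
          rw [sum_mul]
          refine sum_congr rfl fun I _ => ?_
          rw [Fintype.card_piFinset]
      _ ≤ ∑ _I ∈ good, 2 ^ (n * k) := sum_le_sum hprod
      _ = good.card * 2 ^ (n * k) := by rw [sum_const, smul_eq_mul]
      _ ≤ 2 ^ (2 * n) * 2 ^ (n * k) := by
          refine Nat.mul_le_mul_right _ ?_
          refine (card_le_univ good).trans ?_
          rw [Fintype.card_finset, Fintype.card_prod, Fintype.card_fin, Fintype.card_bool]
          exact Nat.pow_le_pow_right (by norm_num) (by omega)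
  have h3 : 2 ^ (2 * n) * ((∏ i, (F i).card) * 2 ^ n) ≤ 2 ^ (2 * n) * 2 ^ (n * k) := by
    calc 2 ^ (2 * n) * ((∏ i, (F i).card) * 2 ^ n) = (∏ i, (F i).card) * 2 ^ (3 * n) := by ring
      _ ≤ _ := hsum
  exact Nat.le_of_mul_le_mul_left h3 (by positivity)

/-- the mixed graph -/
def mixed2 {n k : ℕ} (P : Fin k → (Fin n → Bool) → Finset (Sym2 (Fin n × Bool)))
    (c : Fin k → (Fin n → Bool)) : SimpleGraph (Fin n × Bool) where
  Adj u v := u ≠ v ∧ ¬ ∃ i, s(u, v) ∈ P i (c i) ∧ u.2 = c i u.1 ∧ v.2 = c i v.1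
  symm := ⟨by
    rintro u v ⟨h1, h2⟩
    refine ⟨h1.symm, ?_⟩
    rintro ⟨i, h3, h4, h5⟩
    exact h2 ⟨i, by rw [Sym2.eq_swap]; exact h3, h5, h4⟩⟩
  loopless := ⟨fun v h => h.1 rfl⟩

theorem mixed2_matched {n k : ℕ} (P : Fin k → (Fin n → Bool) → Finset (Sym2 (Fin n × Bool)))
    (c : Fin k → (Fin n → Bool)) : mixed2 P c ∈ matched n := by
  intro i
  refine ⟨by simp, ?_⟩
  rintro ⟨j, -, h1, h2⟩
  simp only at h1 h2
  rw [← h1] at h2
  exact absurd h2 (by simp)

open Classical in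
/-- The counting bound for one circuit that accepts the graphs `star σ`, `σ ∈ 𝓕`. -/
theorem count_bound2 (n a r t : ℕ) (ι : Type) [Fintype ι]
    (D : Circuit (Sym2 (Fin n × Bool)) ι) (hD : D.Decomposable) (hl : D.LeafSize t)
    (𝓕 : Finset (Fin n → Bool)) (h𝓕 : 𝓕.Nonempty)
    (hacc : ∀ σ ∈ 𝓕, D.Accepts (code (star σ)))
    (hsound : ∀ G ∈ matched n, D.Accepts (code G) → vc G + a ≤ 2 * n)
    (hr : 0 < r) (htr : 4 * t ≤ r ^ 2) (har : 3 * n * r ≤ a * (a - 1)) :
    ∃ k : ℕ, k * (t + 1) ≤ n * (2 * n + 1) + (t + 1) ∧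
      𝓕.card ^ k * 2 ^ n ≤ (4 * Fintype.card ι) ^ (2 * k) * 2 ^ (n * k) := by
  obtain ⟨k, F, P, hk, hPc, hPd, hPm, hcard⟩ := sk (Sym2 (Fin n × Bool)) ι (Fin n → Bool) t
    (fun σ => code (star σ)) D hD hl 𝓕 h𝓕 hacc
  have hcardX : Fintype.card (Sym2 (Fin n × Bool)) = n * (2 * n + 1) := by
    rw [Sym2.card, Fintype.card_prod, Fintype.card_fin, Fintype.card_bool, Nat.choose_two_right]
    have : (n * 2 + 1) * (n * 2 + 1 - 1) = (n * (2 * n + 1)) * 2 := by
      simp only [Nat.add_sub_cancel]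
      ring
    rw [this, Nat.mul_div_cancel _ (by norm_num)]
  refine ⟨k, hcardX ▸ hk, ?_⟩
  have hcore := core2 n a r (2 * t) k F P hr (by omega) har hPc hPd (by
    intro c hc
    have hacc' : D.Accepts (code (mixed2 P c)) := by
      refine hPm _ c hc ?_
      intro i e he
      induction e using Sym2.ind with
      | _ u v =>
        simp only [code, SimpleGraph.mem_edgeSet, decide_eq_decide]
        constructor
        · rintro ⟨h1, h2⟩
          exact ⟨h1, fun h => h2 ⟨i, he, h.1, h.2⟩⟩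
        · rintro ⟨h1, h2⟩
          refine ⟨h1, ?_⟩
          rintro ⟨j, h3, h4, h5⟩
          have hij : i = j := by
            by_contra hne
            exact (Finset.disjoint_left.1 (hPd i j hne (c i) (hc i) (c j) (hc j))) he h3
          subst hij
          exact h2 ⟨h4, h5⟩
    have hvc := hsound _ (mixed2_matched P c) hacc'
    obtain ⟨S, hS, hSc⟩ := exists_cover (mixed2 P c)
    refine ⟨Sᶜ, ?_, ?_⟩
    · rw [card_compl, Fintype.card_prod, Fintype.card_fin, Fintype.card_bool, hS]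
      omega
    · intro u hu v hv huv
      have hnadj : ¬ (mixed2 P c).Adj u v := by
        intro h
        rcases hSc h with h' | h'
        · exact (mem_compl.1 hu) h'
        · exact (mem_compl.1 hv) h'
      by_contra hcon
      exact hnadj ⟨huv, hcon⟩)
  calc 𝓕.card ^ k * 2 ^ n
      ≤ ((4 * Fintype.card ι) ^ (2 * k) * ∏ i, (F i).card) * 2 ^ n :=
        Nat.mul_le_mul_right _ hcard
    _ = (4 * Fintype.card ι) ^ (2 * k) * ((∏ i, (F i).card) * 2 ^ n) := by
        rw [mul_assoc]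
    _ ≤ _ := Nat.mul_le_mul_left _ hcore

end Pool.Agent.Helper62K9.DW
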