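import Pool.Agent.Helper62K9.DV.Upper
import Pool.Agent.Helper62K9.DV.Main

set_option autoImplicit false

/-!
# Decomposable circuits for vertex cover: the upper bound for the ratio `2 - m / n`
-/

namespace Pool.Agent.Helper62K9.DW

open Finset Pool.Agent.Helper62K9.DV

/-- the leaves read the variables `g e` instead of `e` -/
def pullGate {X Y ι : Type} (g : X ↪ Y) : Gate X ι → Gate Y ι
  | .leaf S f => .leaf (S.map g) fun y => f fun e => y (g e)
  | .disj A => .disj A
  | .conj a b => .conj a b

theorem pullGate_leaf {X Y ι : Type} (g : X ↪ Y) {G : Gate X ι} {S : Finset Y}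
    {f : (Y → Bool) → Prop} (h : pullGate g G = .leaf S f) :
    ∃ S' f', G = .leaf S' f' ∧ S = S'.map g ∧ f = fun y => f' fun e => y (g e) := by
  cases G with
  | leaf S' f' =>
    simp only [pullGate, Gate.leaf.injEq] at h
    exact ⟨S', f', rfl, h.1.symm, h.2.symm⟩
  | disj A => simp [pullGate] at h
  | conj a b => simp [pullGate] at h

theorem pullGate_disj {X Y ι : Type} (g : X ↪ Y) {G : Gate X ι} {A : Finset ι}
    (h : pullGate g G = .disj A) : G = .disj A := by
  cases G with
  | leaf S' f' => simp [pullGate] at h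
  | disj A => simpa [pullGate] using h
  | conj a b => simp [pullGate] at h

theorem pullGate_conj {X Y ι : Type} (g : X ↪ Y) {G : Gate X ι} {a b : ι}
    (h : pullGate g G = .conj a b) : G = .conj a b := by
  cases G with
  | leaf S' f' => simp [pullGate] at h
  | disj A => simp [pullGate] at h
  | conj a b => simpa [pullGate] using h

/-- the circuit on the variables `g e` -/
def pull {X Y ι : Type} (D : Circuit X ι) (g : X ↪ Y) : Circuit Y ι where
  gate v := pullGate g (D.gate v)
  out := D.out
  rank := D.rank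
  disj_lt v A h := D.disj_lt v A (pullGate_disj g h)
  conj_lt v a b h := D.conj_lt v a b (pullGate_conj g h)
  local_leaf v S f h x y hxy hx := by
    obtain ⟨S', f', h1, rfl, rfl⟩ := pullGate_leaf g h
    exact D.local_leaf v S' f' h1 _ _ (fun e he => hxy (g e) (mem_map_of_mem g he)) hx

theorem pull_true {X Y ι : Type} (D : Circuit X ι) (g : X ↪ Y) (y : Y → Bool) (v : ι) :
    (pull D g).True y v ↔ D.True (fun e => y (g e)) v := by
  constructor
  · intro h
    induction h with
    | leaf v S f h1 h2 =>
      obtain ⟨S', f', h3, rfl, rfl⟩ := pullGate_leaf g h1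
      exact .leaf v S' f' h3 h2
    | disj v A a h1 h2 _ ih => exact .disj v A a (pullGate_disj g h1) h2 ih
    | conj v a b h1 _ _ ih1 ih2 => exact .conj v a b (pullGate_conj g h1) ih1 ih2
  · intro h
    induction h with
    | leaf v S f h1 h2 =>
      refine .leaf v (S.map g) (fun y => f fun e => y (g e)) ?_ h2
      show pullGate g (D.gate v) = _
      rw [h1]
      rfl
    | disj v A a h1 h2 _ ih =>
      refine .disj v A a ?_ h2 ih
      show pullGate g (D.gate v) = _
      rw [h1]
      rfl
    | conj v a b h1 _ _ ih1 ih2 =>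
      refine .conj v a b ?_ ih1 ih2
      show pullGate g (D.gate v) = _
      rw [h1]
      rfl

theorem pull_reads {X Y ι : Type} (D : Circuit X ι) (g : X ↪ Y) {v : ι} {e : Y}
    (h : (pull D g).Reads v e) : ∃ e', g e' = e ∧ D.Reads v e' := by
  induction h with
  | leaf v S f e h1 h2 =>
    obtain ⟨S', f', h3, rfl, rfl⟩ := pullGate_leaf g h1
    obtain ⟨e', he', rfl⟩ := mem_map.1 h2
    exact ⟨e', rfl, .leaf v S' f' e' h3 he'⟩
  | disj v A a e h1 h2 _ ih =>
    obtain ⟨e', he', h3⟩ := ih
    exact ⟨e', he', .disj v A a e' (pullGate_disj g h1) h2 h3⟩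
  | left v a b e h1 _ ih =>
    obtain ⟨e', he', h3⟩ := ih
    exact ⟨e', he', .left v a b e' (pullGate_conj g h1) h3⟩
  | right v a b e h1 _ ih =>
    obtain ⟨e', he', h3⟩ := ih
    exact ⟨e', he', .right v a b e' (pullGate_conj g h1) h3⟩

theorem pull_decomposable {X Y ι : Type} {D : Circuit X ι} (g : X ↪ Y) (h : D.Decomposable) :
    (pull D g).Decomposable := by
  intro v a b h1 e h2 h3
  obtain ⟨e1, he1, h4⟩ := pull_reads D g h2
  obtain ⟨e2, he2, h5⟩ := pull_reads D g h3
  have h6 : e1 = e2 := g.injective (he1.trans he2.symm)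
  subst h6
  exact h v a b (pullGate_conj g h1) e1 h4 h5

theorem pull_leafSize {X Y ι : Type} {D : Circuit X ι} (g : X ↪ Y) {l : ℕ} (h : D.LeafSize l) :
    (pull D g).LeafSize l := by
  intro v S f h1
  obtain ⟨S', f', h3, rfl, rfl⟩ := pullGate_leaf g h1
  rw [card_map]
  exact h v S' f' h3

/-- the first `2m` of the `2n` vertices -/
def first {m n : ℕ} (h : m ≤ n) : Fin m × Bool ↪ Fin n × Bool where
  toFun p := (Fin.castLE h p.1, p.2)
  inj' p q hpq := by
    have h1 := congrArg Prod.fst hpq
    have h2 := congrArg Prod.snd hpq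
    exact Prod.ext (Fin.castLE_injective h h1) h2

theorem vc_first_le {m n : ℕ} (h : m ≤ n) {G : SimpleGraph (Fin n × Bool)} (hG : G ∈ matched n)
    (hvc : vc G = n) : vc (G.comap (first h)) ≤ m := by
  classical
  obtain ⟨S, hS, hc⟩ := exists_cover G
  have h1 : (G.comap (first h)).IsVertexCover
      ((univ.filter fun p => first h p ∈ S : Finset (Fin m × Bool)) : Set (Fin m × Bool)) := by
    intro u v huv
    rcases hc huv with h2 | h2
    · exact Or.inl (by simpa using h2)
    · exact Or.inr (by simpa using h2)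
  refine (vc_le _ _ h1).trans ?_
  -- one element of `S` in each of the other pairs
  have h2 : n - m ≤ (S.filter fun u => m ≤ (u.1 : ℕ)).card := by
    have h3 : (univ.filter fun i : Fin n => m ≤ (i : ℕ)) ⊆
        (S.filter fun u => m ≤ (u.1 : ℕ)).image Prod.fst := by
      intro i hi
      have hi' := (mem_filter.1 hi).2
      rcases hc (hG i) with h4 | h4
      · exact mem_image.2 ⟨_, mem_filter.2 ⟨h4, hi'⟩, rfl⟩
      · exact mem_image.2 ⟨_, mem_filter.2 ⟨h4, hi'⟩, rfl⟩
    have h5 : n - m = (univ.filter fun i : Fin n => m ≤ (i : ℕ)).card := by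
      have h6 := card_filter_add_card_filter_not (s := (univ : Finset (Fin n)))
        (fun i => (i : ℕ) < m)
      have h7 : (univ.filter fun i : Fin n => (i : ℕ) < m).card = m := by
        rw [Fin.card_filter_val_lt]
        omega
      rw [card_univ, Fintype.card_fin, h7] at h6
      simp only [not_lt] at h6
      omega
    rw [h5]
    exact (card_le_card h3).trans card_image_le
  have h3 : (univ.filter fun p => first h p ∈ S).card ≤
      (S.filter fun u => ¬ m ≤ (u.1 : ℕ)).card := by
    refine card_le_card_of_injOn (first h) ?_ (first h).injective.injOn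
    intro p hp
    refine mem_coe.2 (mem_filter.2 ⟨(mem_filter.1 (mem_coe.1 hp)).2, ?_⟩)
    have : ((first h p).1 : ℕ) = p.1 := rfl
    rw [this]
    have := p.1.2
    omega
  have h4 := card_filter_add_card_filter_not (s := S) (fun u => m ≤ (u.1 : ℕ))
  omega

theorem vc_le_first {m n : ℕ} (h : m ≤ n) (G : SimpleGraph (Fin n × Bool)) :
    vc G + 2 * m ≤ vc (G.comap (first h)) + 2 * n := by
  classical
  obtain ⟨S, hS, hc⟩ := exists_cover (G.comap (first h))
  have h1 : G.IsVertexCover
      ((S.map (first h) ∪ (univ.map (first h))ᶜ : Finset (Fin n × Bool)) :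
        Set (Fin n × Bool)) := by
    intro u v huv
    by_cases hu : u ∈ (univ.map (first h) : Finset (Fin n × Bool))
    · by_cases hv : v ∈ (univ.map (first h) : Finset (Fin n × Bool))
      · obtain ⟨u', -, rfl⟩ := mem_map.1 hu
        obtain ⟨v', -, rfl⟩ := mem_map.1 hv
        have h2 : (G.comap (first h)).Adj u' v' := huv
        rcases hc h2 with h3 | h3
        · exact Or.inl (mem_coe.2 (mem_union_left _ (mem_map_of_mem _ h3)))
        · exact Or.inr (mem_coe.2 (mem_union_left _ (mem_map_of_mem _ h3)))
      · exact Or.inr (mem_coe.2 (mem_union_right _ (mem_compl.2 hv)))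
    · exact Or.inl (mem_coe.2 (mem_union_right _ (mem_compl.2 hu)))
  have h2 := (vc_le _ _ h1).trans (card_union_le _ _)
  rw [card_map, card_compl, card_map, card_univ, Fintype.card_prod, Fintype.card_prod,
    Fintype.card_fin, Fintype.card_fin, Fintype.card_bool, hS] at h2
  omega

/-- the circuit for the ratio `2 - m / n` -/
theorem gap (m n : ℕ) (h : m ≤ n) :
    ∃ (ι : Type) (_ : Fintype ι) (D : Circuit (Sym2 (Fin n × Bool)) ι),
      Fintype.card ι ≤ (2 * m ^ 2 + m + 1) * (4 ^ m + 1) ∧ D.Decomposable ∧ D.LeafSize 1 ∧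
      (∀ G ∈ matched n, vc G = n → D.Accepts (code G)) ∧
      ∀ G : SimpleGraph (Fin n × Bool), D.Accepts (code G) → vc G + m ≤ 2 * n := by
  obtain ⟨ι, hι, D, h1, h2, h3, h4⟩ := upper m m
  have hcode : ∀ G : SimpleGraph (Fin n × Bool),
      (fun e => code G (Sym2.map (first h) e)) = code (G.comap (first h)) := by
    intro G
    funext e
    induction e using Sym2.ind with
    | _ u v =>
      unfold code
      rw [decide_eq_decide]
      exact Iff.rfl
  have hacc : ∀ G : SimpleGraph (Fin n × Bool),
      (pull D ⟨Sym2.map (first h), Sym2.map.injective (first h).injective⟩).Accepts (code G) ↔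
        vc (G.comap (first h)) ≤ m := by
    intro G
    rw [← h4, ← hcode]
    exact pull_true D _ _ _
  refine ⟨ι, hι, pull D ⟨Sym2.map (first h), Sym2.map.injective (first h).injective⟩, h1,
    pull_decomposable _ h2, pull_leafSize _ h3, ?_, ?_⟩
  · intro G hG hvc
    exact (hacc G).2 (vc_first_le h hG hvc)
  · intro G hG
    have h5 := (hacc G).1 hG
    have h6 := vc_le_first h G
    omega

end Pool.Agent.Helper62K9.DW
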