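import Pool.Agent.Helper62K9.DW.Count

set_option autoImplicit false

/-!
# Decomposable circuits for vertex cover: the lower bound `2 ^ (γ (2 - c) ^ 4 n)`
-/

namespace Pool.Agent.Helper62K9.DW

open Finset Pool.Agent.Helper62K9.DV Pool.Agent.Helper62K9.SQ

/-- the lower bound -/
theorem lower2 : ∃ γ : ℝ, 0 < γ ∧
    ∀ (c : ℝ) (n l : ℕ) (R : Type) [Fintype R] (p : R → ℝ) (ι : R → Type) [∀ r, Fintype (ι r)]
      (D : ∀ r, Circuit (Sym2 (Fin n × Bool)) (ι r)),
      1 ≤ c → c < 2 → (∀ r, 0 ≤ p r) → ∑ r, p r = 1 →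
      (∀ r, (D r).Decomposable) → (∀ r, (D r).LeafSize l) →
      (l : ℝ) ≤ 1 + γ * (2 - c) ^ 4 * (n : ℝ) ^ 2 →
      (∀ r, ∀ G ∈ matched n, (D r).Accepts (code G) → (vc G : ℝ) ≤ c * n) →
      (∀ G ∈ matched n, vc G = n →
        (2 : ℝ) ^ (-(γ * (2 - c) ^ 4 * n)) ≤
          ∑ r, Set.indicator {r | (D r).Accepts (code G)} p r) →
      ∃ r, (2 : ℝ) ^ (γ * (2 - c) ^ 4 * n) ≤ Fintype.card (ι r) + 1 := by
  classical
  refine ⟨1 / 10 ^ 6, by positivity, ?_⟩
  intro c n l R _ p ι _ D hc1 hc2 hp hp1 hD hl hln hsound hcomp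
  obtain ⟨ε, hε⟩ : ∃ ε, ε = 2 - c := ⟨_, rfl⟩
  rw [← hε] at hln hcomp ⊢
  have h0 : 0 < ε := by linarith only [hε, hc2]
  have h1 : ε ≤ 1 := by linarith only [hε, hc1]
  have hε2 : 0 < ε ^ 2 := by positivity
  have hε4 : 0 < ε ^ 4 := by positivity
  have h24 : ε ^ 4 ≤ ε ^ 2 := pow_le_pow_of_le_one h0.le h1 (by norm_num)
  have h41 : ε ^ 4 ≤ 1 := pow_le_one₀ h0.le h1
  have hnn : (0 : ℝ) ≤ n := Nat.cast_nonneg n
  have hR : Nonempty R := by
    by_contra h
    rw [not_nonempty_iff] at h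
    simp at hp1
  obtain ⟨E, hE⟩ : ∃ E : ℝ, E = 1 / 10 ^ 6 * ε ^ 4 * n := ⟨_, rfl⟩
  have hE0 : 0 ≤ E := by rw [hE]; positivity
  rw [← hE] at hcomp ⊢
  by_cases hn : 1 < E
  swap
  · -- small `n`
    obtain ⟨r⟩ := hR
    refine ⟨r, ?_⟩
    push Not at hn
    have h3 : (1 : ℝ) ≤ Fintype.card (ι r) := by
      have : 0 < Fintype.card (ι r) := Fintype.card_pos_iff.2 ⟨(D r).out⟩
      exact_mod_cast this
    calc (2 : ℝ) ^ E ≤ 2 ^ (1 : ℝ) := Real.rpow_le_rpow_of_exponent_le (by norm_num) hn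
      _ = 2 := Real.rpow_one 2
      _ ≤ _ := by linarith only [h3]
  · have hbig : 10 ^ 6 ≤ ε ^ 4 * n := by
      have e1 : E = 1 / 10 ^ 6 * (ε ^ 4 * n) := by rw [hE]; ring
      rw [e1] at hn
      linarith only [hn]
    have hn6 : (10 : ℝ) ^ 6 ≤ n := by
      have h2 : ε ^ 4 * n ≤ 1 * n := mul_le_mul_of_nonneg_right h41 hnn
      linarith only [h2, hbig]
    have hn0 : (0 : ℝ) < n := by linarith only [hn6]
    have hn144 : 144 / ε ^ 2 ≤ n := by
      rw [div_le_iff₀ hε2]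
      have h3 : ε ^ 4 * n ≤ ε ^ 2 * n := mul_le_mul_of_nonneg_right h24 hnn
      linarith only [h3, hbig]
    obtain ⟨a, r, t, ha, hr, htr, har, -, hlt⟩ :=
      numbers (M := ⌈55296 / ε ^ 4⌉₊) h0 h1 hn144 (Nat.le_ceil _)
    obtain ⟨t', ht'⟩ : ∃ t', t' = t / 2 := ⟨_, rfl⟩
    have ht1 : 2 * t' ≤ t := by omega
    have ht2 : t ≤ 2 * t' + 1 := by omega
    have hcn : (10 : ℝ) ^ 12 ≤ ε ^ 4 * (n : ℝ) ^ 2 := by
      calc (10 : ℝ) ^ 12 = 10 ^ 6 * 10 ^ 6 := by norm_num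
        _ ≤ (ε ^ 4 * n) * n := mul_le_mul hbig hn6 (by norm_num) (by positivity)
        _ = ε ^ 4 * (n : ℝ) ^ 2 := by ring
    have htR : ε ^ 4 / 36864 * (n : ℝ) ^ 2 ≤ t' := by
      have h6 : (t : ℝ) ≤ 2 * t' + 1 := by exact_mod_cast ht2
      have h7 : ε ^ 4 / 36864 * (n : ℝ) ^ 2 = (ε ^ 4 / 18432 * (n : ℝ) ^ 2) / 2 := by ring
      rw [h7]
      linarith only [h6, hlt]
    have hlt' : l ≤ t' := by
      have h2 : (l : ℝ) ≤ t' := by
        have h3 : ε ^ 4 / 36864 * (n : ℝ) ^ 2 = 1 / 36864 * (ε ^ 4 * (n : ℝ) ^ 2) := by ring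
        have h4 : 1 / 10 ^ 6 * ε ^ 4 * (n : ℝ) ^ 2 = 1 / 10 ^ 6 * (ε ^ 4 * (n : ℝ) ^ 2) := by ring
        rw [h3] at htR
        rw [h4] at hln
        linarith only [htR, hln, hcn]
      exact_mod_cast h2
    set 𝓕 : R → Finset (Fin n → Bool) := fun q =>
      univ.filter fun σ => (D q).Accepts (code (star σ)) with h𝓕
    set B : ℝ := (2 : ℝ) ^ ((n : ℝ) - E) with hB
    have hB0 : 0 < B := by positivity
    obtain ⟨q, hq⟩ : ∃ q, B ≤ ((𝓕 q).card : ℝ) := by
      by_contra hcon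
      push Not at hcon
      have h2 : ∑ q, p q * ((𝓕 q).card : ℝ) = ∑ σ : Fin n → Bool,
          ∑ q, Set.indicator {q | (D q).Accepts (code (star σ))} p q := by
        rw [sum_comm]
        refine sum_congr rfl fun q _ => ?_
        rw [h𝓕]
        simp only [Set.indicator_apply, Set.mem_ofPred_eq]
        rw [← sum_filter, sum_const, nsmul_eq_mul, mul_comm]
      have h3 : B ≤ ∑ q, p q * ((𝓕 q).card : ℝ) := by
        rw [h2]
        have h4 : ∀ σ ∈ (univ : Finset (Fin n → Bool)), (2 : ℝ) ^ (-E) ≤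
            ∑ q, Set.indicator {q | (D q).Accepts (code (star σ))} p q := fun σ _ =>
          hcomp (star σ) (star_matched σ) (star_vc σ)
        have h5 := card_nsmul_le_sum (univ : Finset (Fin n → Bool)) _ _ h4
        refine le_trans (le_of_eq ?_) h5
        rw [card_univ, Fintype.card_fun, Fintype.card_fin, Fintype.card_bool, nsmul_eq_mul, hB]
        push_cast
        rw [← Real.rpow_natCast, ← Real.rpow_add (by norm_num)]
        ring_nf
      have h4 : ∑ q, p q * ((𝓕 q).card : ℝ) < ∑ q, p q * B := by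
        have hex : ∃ q, 0 < p q := by
          by_contra hcon'
          push Not at hcon'
          have : ∑ q, p q ≤ 0 := sum_nonpos fun q _ => hcon' q
          linarith
        obtain ⟨q₀, hq₀⟩ := hex
        refine sum_lt_sum (fun q _ => mul_le_mul_of_nonneg_left (hcon q).le (hp q))
          ⟨q₀, mem_univ _, mul_lt_mul_of_pos_left (hcon q₀) hq₀⟩
      rw [← sum_mul, hp1, one_mul] at h4
      linarith
    refine ⟨q, ?_⟩
    by_contra hcon
    push Not at hcon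
    have hleaf : (D q).LeafSize t' := fun v S f h => (hl q v S f h).trans hlt'
    have hne : (𝓕 q).Nonempty := by
      rw [← card_pos]
      have : (0 : ℝ) < ((𝓕 q).card : ℝ) := hB0.trans_le hq
      exact_mod_cast this
    obtain ⟨k, hk1, hk2⟩ := count_bound2 n a r t' (ι q) (D q) (hD q) hleaf (𝓕 q) hne
      (fun σ hσ => (mem_filter.1 hσ).2)
      (fun G hG hacc => by
        have h2 := hsound q G hG hacc
        have h3 : ((vc G + a : ℕ) : ℝ) ≤ ((2 * n : ℕ) : ℝ) := by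
          push_cast
          have h4 : ε * n = 2 * n - c * n := by rw [hε]; ring
          linarith only [h2, ha, h4]
        exact_mod_cast h3)
      hr (by omega) har
    -- bound for `k`
    have htpos : (0 : ℝ) < (t' : ℝ) + 1 := by positivity
    have hk3 : (k : ℝ) ≤ 110593 / ε ^ 4 := by
      have h2 : k * (t' + 1) ≤ 3 * n ^ 2 + (t' + 1) := by
        have h3 : n * (2 * n + 1) ≤ 3 * n ^ 2 := by
          have h4 : 1 ≤ n := by
            have : (1 : ℝ) ≤ n := by linarith only [hn6]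
            exact_mod_cast this
          nlinarith only [h4]
        omega
      have h3 : (k : ℝ) * (t' + 1) ≤ 3 * (n : ℝ) ^ 2 + (t' + 1) := by exact_mod_cast h2
      have h4 : 3 * (n : ℝ) ^ 2 ≤ (110592 / ε ^ 4) * (t' + 1) := by
        have h5 : (110592 / ε ^ 4) * (ε ^ 4 / 36864 * (n : ℝ) ^ 2) = 3 * (n : ℝ) ^ 2 := by
          field_simp
          norm_num
        rw [← h5]
        exact mul_le_mul_of_nonneg_left (by linarith only [htR]) (by positivity)
      have h5 : (1 : ℝ) ≤ 1 / ε ^ 4 := by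
        rw [le_div_iff₀ hε4, one_mul]
        exact h41
      have h6 : (k : ℝ) * (t' + 1) ≤ (110593 / ε ^ 4) * (t' + 1) := by
        have h7 : (110593 / ε ^ 4) * ((t' : ℝ) + 1) =
            (110592 / ε ^ 4) * (t' + 1) + 1 / ε ^ 4 * (t' + 1) := by ring
        have h8 : 1 * ((t' : ℝ) + 1) ≤ 1 / ε ^ 4 * (t' + 1) :=
          mul_le_mul_of_nonneg_right h5 htpos.le
        rw [h7]
        linarith only [h3, h4, h8]
      exact le_of_mul_le_mul_right h6 htpos
    have hb : ((𝓕 q).card : ℝ) ^ k * 2 ^ n ≤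
        (4 * (Fintype.card (ι q) : ℝ)) ^ (2 * k) * 2 ^ (n * k) := by
      exact_mod_cast hk2
    have h2 : B ^ k * 2 ^ n ≤ ((𝓕 q).card : ℝ) ^ k * 2 ^ n :=
      mul_le_mul_of_nonneg_right (pow_le_pow_left₀ hB0.le hq _) (by positivity)
    have h3 : (4 * (Fintype.card (ι q) : ℝ)) ^ (2 * k) * 2 ^ (n * k) ≤
        ((2 : ℝ) ^ (E + 2)) ^ (2 * k) * 2 ^ (n * k) := by
      refine mul_le_mul_of_nonneg_right (pow_le_pow_left₀ (by positivity) ?_ _) (by positivity)
      rw [Real.rpow_add (by norm_num), mul_comm]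
      have : (2 : ℝ) ^ (2 : ℝ) = 4 := by norm_num
      rw [this]
      apply mul_le_mul_of_nonneg_right _ (by norm_num)
      linarith only [hcon]
    have h4 : (2 : ℝ) ^ (((n : ℝ) - E) * k + n) ≤
        (2 : ℝ) ^ ((E + 2) * (2 * k) + n * k) := by
      have e1 : B ^ k * 2 ^ n = (2 : ℝ) ^ (((n : ℝ) - E) * k + n) := by
        rw [hB, ← Real.rpow_natCast, ← Real.rpow_mul (by norm_num), ← Real.rpow_natCast 2 n,
          ← Real.rpow_add (by norm_num)]
      have e2 : ((2 : ℝ) ^ (E + 2)) ^ (2 * k) * 2 ^ (n * k) =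
          (2 : ℝ) ^ ((E + 2) * (2 * k) + n * k) := by
        rw [← Real.rpow_natCast, ← Real.rpow_mul (by norm_num), ← Real.rpow_natCast 2 (n * k),
          ← Real.rpow_add (by norm_num)]
        push_cast
        rfl
      rw [← e1, ← e2]
      exact h2.trans (hb.trans h3)
    have h5 : ((n : ℝ) - E) * k + n ≤ (E + 2) * (2 * k) + n * k :=
      (Real.rpow_le_rpow_left_iff (by norm_num)).1 h4
    have h6 : (n : ℝ) ≤ k * (3 * E + 4) := by
      have e1 : ((n : ℝ) - E) * k = n * k - E * k := by ring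
      have e2 : (E + 2) * (2 * k) = 2 * (E * k) + 4 * k := by ring
      have e3 : (k : ℝ) * (3 * E + 4) = 3 * (E * k) + 4 * k := by ring
      rw [e1, e2] at h5
      rw [e3]
      linarith only [h5]
    have h7 : (k : ℝ) * (3 * E + 4) ≤ 110593 / ε ^ 4 * (3 * E + 4) :=
      mul_le_mul_of_nonneg_right hk3 (by positivity)
    have h8 : 110593 / ε ^ 4 * (3 * E + 4) = 331779 / 10 ^ 6 * n + 442372 / ε ^ 4 := by
      rw [hE]
      field_simp
      ring
    have h9 : 442372 / ε ^ 4 ≤ 442372 / 10 ^ 6 * n := by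
      rw [div_le_iff₀ hε4]
      have e1 : 442372 / 10 ^ 6 * (n : ℝ) * ε ^ 4 = 442372 / 10 ^ 6 * (ε ^ 4 * n) := by ring
      rw [e1]
      linarith only [hbig]
    rw [h8] at h7
    linarith only [h6, h7, h9, hn0]

end Pool.Agent.Helper62K9.DW
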